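import Mathlib

set_option autoImplicit false

namespace Pool.Agent.Results.MP_98aad6_an.EmptyFri

open Filter Topology Finset

section Defs

variable {Y : Type} [AddCommGroup Y] [Module ℝ Y] [TopologicalSpace Y]

/-- `F` is a face of `C`. -/
def IsFace (C F : Set Y) : Prop :=
  F ⊆ C ∧ Convex ℝ F ∧ ∀ x ∈ F, ∀ y ∈ C, ∀ z ∈ C, x ∈ openSegment ℝ y z → y ∈ F ∧ z ∈ F

/-- The smallest face of `C` containing `x`. -/
def minFace (C : Set Y) (x : Y) : Set Y := ⋂₀ {F | IsFace C F ∧ x ∈ F}

/-- The face relative interior. -/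
def fri (C : Set Y) : Set Y := {x | x ∈ C ∧ C ⊆ closure (minFace C x)}

/-- The conic hull of `C - x`. -/
def cone (C : Set Y) (x : Y) : Set Y := {u | ∃ α : ℝ, 0 ≤ α ∧ ∃ y ∈ C, u = α • (y - x)}

/-- The quasi-relative interior. -/
def qri (C : Set Y) : Set Y := {x | x ∈ C ∧ ∃ V : Submodule ℝ Y, closure (cone C x) = V}

end Defs

abbrev X := lp (fun _ : ℝ × ℕ => ℝ) 2

def S (i : ℝ) (N : ℕ) (x : X) : ℝ := ∑ n ∈ range N, ((n : ℝ) + 1) * x (i, n + 1)

def C : Set X := {x | ∀ i N, |x (i, 0)| + S i N x ≤ 1 / ((N : ℝ) + 1)}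

lemma cev (p : ℝ × ℕ) : Continuous fun x : X => x p := (lp.lipschitzWith_one_eval 2 p).continuous

lemma S_lin (i : ℝ) (N : ℕ) (a b : ℝ) (x y : X) :
    S i N (a • x + b • y) = a * S i N x + b * S i N y := by
  simp only [S, mul_sum, ← sum_add_distrib, lp.coeFn_add, lp.coeFn_smul, Pi.add_apply,
    Pi.smul_apply, smul_eq_mul]
  exact sum_congr rfl fun n _ => by ring

lemma ev_lin (p : ℝ × ℕ) (a b : ℝ) (x y : X) : (a • x + b • y) p = a * x p + b * y p := by
  simp

lemma C_closed : IsClosed C := by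
  simp only [C, Set.ofPred_forall]
  refine isClosed_iInter fun i => isClosed_iInter fun N => isClosed_le ?_ continuous_const
  exact (cev _).abs.add (continuous_finsetSum _ fun n _ => (cev _).const_mul _)

lemma C_convex : Convex ℝ C := by
  intro x hx y hy a b ha hb hab i N
  rw [S_lin, ev_lin]
  have h1 := mul_le_mul_of_nonneg_left (hx i N) ha
  have h2 := mul_le_mul_of_nonneg_left (hy i N) hb
  have h3 := abs_add_le (a * x (i, 0)) (b * y (i, 0))
  rw [abs_mul, abs_mul, abs_of_nonneg ha, abs_of_nonneg hb] at h3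
  have : a * (1 / ((N : ℝ) + 1)) + b * (1 / ((N : ℝ) + 1)) = 1 / ((N : ℝ) + 1) := by
    rw [← add_mul, hab, one_mul]
  linarith

lemma C_zero : (0 : X) ∈ C := fun i N => by simp [S]; positivity

lemma S_single (i i' : ℝ) (N j : ℕ) (r : ℝ) :
    S i' N (lp.single 2 (i, j) r) = if i' = i ∧ 1 ≤ j ∧ j ≤ N then j * r else 0 := by
  classical
  simp only [S, lp.single_apply, Pi.single_apply, Prod.mk.injEq]
  split_ifs with h
  · obtain ⟨rfl, h1, h2⟩ := h
    obtain ⟨k, rfl⟩ : ∃ k, j = k + 1 := ⟨j - 1, by omega⟩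
    rw [sum_eq_single k (fun n _ hn => by simp [hn]) (fun hk => by simp at hk; omega)]
    simp
  · refine sum_eq_zero fun n hn => ?_
    rw [if_neg, mul_zero]
    rintro ⟨rfl, rfl⟩
    exact h ⟨rfl, by omega, by simpa using hn⟩

lemma mem_C (i : ℝ) (j m : ℕ) (r : ℝ) (hr : (j + 1) * |r| ≤ 1 / ((m : ℝ) + 1)) :
    (lp.single 2 (i, j) r - lp.single 2 (i, m + 1) ((j + 1) * |r| / (m + 1)) : X) ∈ C := by
  classical
  intro i' N
  have e := S_lin i' N 1 (-1) (lp.single 2 (i, j) r)
    (lp.single 2 (i, m + 1) ((j + 1) * |r| / (m + 1)))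
  rw [one_smul, neg_one_smul, ← sub_eq_add_neg, S_single, S_single] at e
  rw [e]
  have h0 : 0 ≤ |r| := abs_nonneg r
  have hj : (0 : ℝ) ≤ j := Nat.cast_nonneg j
  have h1 : |(lp.single 2 (i, j) r - lp.single 2 (i, m + 1) ((j + 1) * |r| / (m + 1)) : X) (i', 0)|
      ≤ if i' = i then |r| else 0 := by
    simp only [lp.coeFn_sub, Pi.sub_apply, lp.single_apply, Pi.single_apply, Prod.mk.injEq]
    rw [if_neg (show ¬ (i' = i ∧ 0 = m + 1) by omega), sub_zero]
    by_cases h : i' = i <;> by_cases h' : 0 = j <;> simp [h, h']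
  have h2 : (if i' = i ∧ 1 ≤ j ∧ j ≤ N then j * r else 0) ≤ if i' = i then j * |r| else 0 := by
    by_cases h : i' = i
    · simp only [h, true_and, if_true]
      split_ifs
      · exact mul_le_mul_of_nonneg_left (le_abs_self r) hj
      · positivity
    · simp [h]
  have h3 : (0 : ℝ) < 1 / ((N : ℝ) + 1) := by positivity
  by_cases h : i' = i
  · simp only [h, true_and, if_true] at h1 h2 ⊢
    by_cases hN : m + 1 ≤ N
    · rw [if_pos (show 1 ≤ m + 1 ∧ m + 1 ≤ N by omega)]
      have : ((m + 1 : ℕ) : ℝ) * ((j + 1) * |r| / (m + 1)) = (j + 1) * |r| := by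
        push_cast; field_simp
      linarith
    · rw [if_neg (show ¬ (1 ≤ m + 1 ∧ m + 1 ≤ N) by omega)]
      have : 1 / ((m : ℝ) + 1) ≤ 1 / ((N : ℝ) + 1) :=
        one_div_le_one_div_of_le (by positivity) (by exact_mod_cast (show N + 1 ≤ m + 1 by omega))
      linarith
  · simp only [h, false_and, if_false] at h1 h2 ⊢
    linarith

lemma cone_add : ∀ u ∈ cone C 0, ∀ v ∈ cone C 0, u + v ∈ cone C 0 := by
  rintro _ ⟨a, ha, x, hx, rfl⟩ _ ⟨b, hb, y, hy, rfl⟩
  rcases (add_nonneg ha hb).eq_or_lt with h | h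
  · have h1 : a = 0 := by linarith
    have h2 : b = 0 := by linarith
    exact ⟨0, le_rfl, 0, C_zero, by simp [h1, h2]⟩
  · refine ⟨a + b, h.le, _, C_convex hx hy (div_nonneg ha h.le) (div_nonneg hb h.le)
      (by field_simp), ?_⟩
    simp only [sub_zero, smul_add, smul_smul, mul_div_cancel₀ _ h.ne']

lemma single_mem (p : ℝ × ℕ) (r : ℝ) : (lp.single 2 p r : X) ∈ closure (cone C 0) := by
  obtain ⟨i, j⟩ := p
  have ht : Tendsto (fun m : ℕ => (lp.single 2 (i, j) r -
      lp.single 2 (i, m + 1) ((j + 1) * |r| / (m + 1)) : X)) atTop (𝓝 (lp.single 2 (i, j) r - 0)) := by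
    refine tendsto_const_nhds.sub (tendsto_zero_iff_norm_tendsto_zero.mpr ?_)
    simp only [lp.norm_single (show (0 : ENNReal) < 2 by norm_num)]
    have := (tendsto_one_div_add_atTop_nhds_zero_nat.const_mul ((j + 1) * |r|)).norm
    simpa [div_eq_mul_inv] using this
  rw [sub_zero] at ht
  refine mem_closure_of_tendsto ht (Eventually.of_forall fun m => ?_)
  set α : ℝ := ((m : ℝ) + 1) * ((j + 1) * |r|) + 1
  have hα : 0 < α := by positivity
  refine ⟨α, hα.le, _, mem_C i j m (r / α) ?_, ?_⟩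
  · rw [abs_div, abs_of_pos hα, ← mul_div_assoc, div_le_div_iff₀ hα (by positivity)]
    simp only [α]; linarith
  · rw [sub_zero, smul_sub, ← lp.single_smul, ← lp.single_smul, abs_div, abs_of_pos hα]
    congr 2 <;> rw [smul_eq_mul] <;> field_simp

theorem main : ∃ C : Set X, IsClosed C ∧ Convex ℝ C ∧ (qri C).Nonempty ∧ fri C = ∅ := by
  classical
  refine ⟨C, C_closed, C_convex, ⟨0, C_zero, ⊤, ?_⟩, ?_⟩
  · refine Set.eq_univ_of_forall fun x => ?_
    refine isClosed_closure.mem_of_tendsto (lp.hasSum_single (by simp) x)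
      (Eventually.of_forall fun s => ?_)
    refine sum_induction _ (· ∈ closure (cone C 0)) (fun a b ha hb => ?_)
      (subset_closure ⟨0, le_rfl, 0, C_zero, by simp⟩) fun p _ => single_mem p _
    exact map_mem_closure₂ continuous_add ha hb cone_add
  · refine Set.eq_empty_of_forall_notMem fun x ⟨hx, hsub⟩ => ?_
    obtain ⟨i, hi⟩ : ∃ i : ℝ, ∀ n, x (i, n) = 0 := by
      have h1 := ((lp.memℓp x).summable (by simp)).countable_support.image Prod.fst
      by_contra h
      push Not at h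
      refine Cardinal.not_countable_real (h1.mono fun i _ => ?_)
      obtain ⟨n, hn⟩ := h i
      exact ⟨(i, n), by simpa using hn, rfl⟩
    let F : Set X := {y | y ∈ C ∧ y (i, 0) = 0 ∧ Tendsto (fun N => S i N y) atTop (𝓝 0)}
    have aux : ∀ y ∈ C, ∀ z ∈ C, ∀ a b : ℝ, 0 < a → 0 < b → a • y + b • z ∈ F → y ∈ F := by
      intro y hy z hz a b ha hb h
      have h1 := h.2.2
      simp only [S_lin] at h1
      have h2 := tendsto_one_div_add_atTop_nhds_zero_nat (𝕜 := ℝ)
      have h3 : ∀ N : ℕ, S i N z ≤ 1 / ((N : ℝ) + 1) := fun N => by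
        linarith [hz i N, abs_nonneg (z (i, 0))]
      have h4 : Tendsto (fun N : ℕ => (a * S i N y + b * S i N z - b * (1 / ((N : ℝ) + 1))) / a)
          atTop (𝓝 0) := by
        simpa using (h1.sub (h2.const_mul b)).div_const a
      have h5 : Tendsto (fun N => S i N y) atTop (𝓝 0) := by
        refine tendsto_of_tendsto_of_tendsto_of_le_of_le h4 h2 (fun N => ?_) fun N => ?_
        · simp only
          rw [div_le_iff₀ ha]
          nlinarith [h3 N]
        · simp only
          linarith [hy i N, abs_nonneg (y (i, 0))]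
      refine ⟨hy, abs_nonpos_iff.mp ?_, h5⟩
      have h6 := h2.sub h5
      rw [sub_zero] at h6
      exact ge_of_tendsto' h6 fun N => by linarith [hy i N]
    have hF : IsFace C F := by
      refine ⟨fun y hy => hy.1, ?_, ?_⟩
      · intro y hy z hz a b ha hb hab
        refine ⟨C_convex hy.1 hz.1 ha hb hab, by rw [ev_lin, hy.2.1, hz.2.1]; simp, ?_⟩
        simp only [S_lin]
        simpa using (hy.2.2.const_mul a).add (hz.2.2.const_mul b)
      · rintro _ hw y hy z hz ⟨a, b, ha, hb, -, rfl⟩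
        exact ⟨aux y hy z hz a b ha hb hw, aux z hz y hy b a hb ha (by rwa [add_comm])⟩
    have h1 : closure (minFace C x) ⊆ {y | y (i, 0) = 0} :=
      closure_minimal (fun y hy => (hy F ⟨hF, hx, hi 0, by simp [S, hi]⟩).2.1)
        (isClosed_eq (cev _) continuous_const)
    have h2 := h1 (hsub (mem_C i 0 0 1 (by simp)))
    simp [lp.single_apply] at h2

theorem result : ∃ (H : Type) (_ : NormedAddCommGroup H) (_ : InnerProductSpace ℝ H)
    (_ : CompleteSpace H) (C : Set H),
    IsClosed C ∧ Convex ℝ C ∧ (qri C).Nonempty ∧ fri C = ∅ :=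
  ⟨X, inferInstance, inferInstance, inferInstance, main⟩

end Pool.Agent.Results.MP_98aad6_an.EmptyFri
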